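import Mathlib

/-!
# A strong law of large numbers for events which are pairwise negatively correlated
-/

set_option autoImplicit false

namespace Pool.Agent.Q120.NC

open Finset MeasureTheory Filter

variable {Ω : Type*} [MeasurableSpace Ω] {μ : Measure Ω} [IsProbabilityMeasure μ]

/-- The number of events among the first `N` which occur. -/
noncomputable def cnt (E : ℕ → Set Ω) (N : ℕ) (ω : Ω) : ℝ := ∑ n ∈ range N, (E n).indicator (fun _ => (1 : ℝ)) ω

/-- The expected number. -/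
noncomputable def tot (μ : Measure Ω) (E : ℕ → Set Ω) (N : ℕ) : ℝ := ∑ n ∈ range N, μ.real (E n)

theorem tot_nonneg (E : ℕ → Set Ω) (N : ℕ) : 0 ≤ tot μ E N := sum_nonneg (fun _ _ => measureReal_nonneg)

theorem tot_mono (E : ℕ → Set Ω) : Monotone (tot μ E) := by
  intro N M h
  exact sum_le_sum_of_subset_of_nonneg (range_mono h) (fun _ _ _ => measureReal_nonneg)

theorem cnt_mono (E : ℕ → Set Ω) (ω : Ω) : Monotone (fun N => cnt E N ω) := by
  intro N M h
  refine sum_le_sum_of_subset_of_nonneg (range_mono h) (fun _ _ _ => ?_)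
  exact Set.indicator_nonneg (fun _ _ => zero_le_one) _

theorem cnt_nonneg (E : ℕ → Set Ω) (N : ℕ) (ω : Ω) : 0 ≤ cnt E N ω :=
  sum_nonneg (fun _ _ => Set.indicator_nonneg (fun _ _ => zero_le_one) _)

theorem integrable_ind {E : Set Ω} (hE : MeasurableSet E) : Integrable (E.indicator (fun _ => (1 : ℝ))) μ :=
  (integrable_const 1).indicator hE

theorem integral_ind {E : Set Ω} (hE : MeasurableSet E) : ∫ ω, E.indicator (fun _ => (1 : ℝ)) ω ∂μ = μ.real E := by
  rw [integral_indicator_const _ hE]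
  simp

theorem mul_ind (E F : Set Ω) (ω : Ω) : E.indicator (fun _ => (1 : ℝ)) ω * F.indicator (fun _ => (1 : ℝ)) ω =
    (E ∩ F).indicator (fun _ => (1 : ℝ)) ω := by
  by_cases h1 : ω ∈ E <;> by_cases h2 : ω ∈ F <;> simp [h1, h2]

theorem second_moment {E : ℕ → Set Ω} (hE : ∀ n, MeasurableSet (E n))
    (hneg : ∀ n m, n ≠ m → μ.real (E n ∩ E m) ≤ μ.real (E n) * μ.real (E m)) (N : ℕ) :
    Integrable (fun ω => (cnt E N ω - tot μ E N) ^ 2) μ ∧
    ∫ ω, (cnt E N ω - tot μ E N) ^ 2 ∂μ ≤ tot μ E N := by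
  have h1 : ∀ ω, (cnt E N ω - tot μ E N) ^ 2 =
      (∑ n ∈ range N, ∑ m ∈ range N, (E n ∩ E m).indicator (fun _ => (1 : ℝ)) ω) -
        2 * tot μ E N * cnt E N ω + tot μ E N ^ 2 := by
    intro ω
    have h2 : cnt E N ω ^ 2 = ∑ n ∈ range N, ∑ m ∈ range N, (E n ∩ E m).indicator (fun _ => (1 : ℝ)) ω := by
      rw [sq]
      unfold cnt
      rw [sum_mul_sum]
      exact sum_congr rfl (fun n _ => sum_congr rfl (fun m _ => mul_ind _ _ _))
    rw [← h2]
    ring
  have hi1 : Integrable (fun ω => ∑ n ∈ range N, ∑ m ∈ range N, (E n ∩ E m).indicator (fun _ => (1 : ℝ)) ω) μ :=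
    integrable_finsetSum _ (fun n _ => integrable_finsetSum _ (fun m _ => integrable_ind ((hE n).inter (hE m))))
  have hi2 : Integrable (fun ω => cnt E N ω) μ := integrable_finsetSum _ (fun n _ => integrable_ind (hE n))
  have hi3 : Integrable (fun ω => 2 * tot μ E N * cnt E N ω) μ := hi2.const_mul _
  have hi4 : Integrable (fun ω => (∑ n ∈ range N, ∑ m ∈ range N, (E n ∩ E m).indicator (fun _ => (1 : ℝ)) ω) -
      2 * tot μ E N * cnt E N ω) μ := hi1.sub hi3
  constructor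
  · refine ((hi1.sub hi3).add (integrable_const (tot μ E N ^ 2))).congr (Eventually.of_forall (fun ω => ?_))
    simp only [Pi.add_apply, Pi.sub_apply]
    rw [h1 ω]
  · have h3 : ∫ ω, (cnt E N ω - tot μ E N) ^ 2 ∂μ =
        (∑ n ∈ range N, ∑ m ∈ range N, μ.real (E n ∩ E m)) - 2 * tot μ E N * tot μ E N + tot μ E N ^ 2 := by
      calc ∫ ω, (cnt E N ω - tot μ E N) ^ 2 ∂μ =
          ∫ ω, ((∑ n ∈ range N, ∑ m ∈ range N, (E n ∩ E m).indicator (fun _ => (1 : ℝ)) ω) -
            2 * tot μ E N * cnt E N ω + tot μ E N ^ 2) ∂μ := integral_congr_ae (Eventually.of_forall h1)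
        _ = _ := by
          rw [integral_add hi4 (integrable_const _), integral_sub hi1 hi3, integral_const_mul]
          rw [integral_finsetSum _ (fun n _ => integrable_finsetSum _ (fun m _ => integrable_ind ((hE n).inter (hE m))))]
          rw [integral_const]
          have h4 : ∫ ω, cnt E N ω ∂μ = tot μ E N := by
            unfold cnt tot
            rw [integral_finsetSum _ (fun n _ => integrable_ind (hE n))]
            exact sum_congr rfl (fun n _ => integral_ind (hE n))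
          rw [h4]
          congr 1
          · congr 1
            refine sum_congr rfl (fun n _ => ?_)
            rw [integral_finsetSum _ (fun m _ => integrable_ind ((hE n).inter (hE m)))]
            exact sum_congr rfl (fun m _ => integral_ind ((hE n).inter (hE m)))
          · simp
    have h5 : ∑ n ∈ range N, ∑ m ∈ range N, μ.real (E n ∩ E m) ≤ tot μ E N + tot μ E N * tot μ E N := by
      have h6 : ∀ n ∈ range N, ∑ m ∈ range N, μ.real (E n ∩ E m) ≤ μ.real (E n) + μ.real (E n) * tot μ E N := by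
        intro n hn
        have h7 : ∀ m ∈ range N, μ.real (E n ∩ E m) ≤ (if m = n then μ.real (E n) else 0) + μ.real (E n) * μ.real (E m) := by
          intro m hm
          by_cases hmn : m = n
          · subst hmn
            rw [if_pos rfl, Set.inter_self]
            have : 0 ≤ μ.real (E m) * μ.real (E m) := mul_self_nonneg _
            linarith
          · rw [if_neg hmn]
            have := hneg n m (Ne.symm hmn)
            linarith
        refine (sum_le_sum h7).trans ?_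
        rw [sum_add_distrib, sum_ite_eq', if_pos hn]
        unfold tot
        rw [mul_sum]
      refine (sum_le_sum h6).trans ?_
      rw [sum_add_distrib, ← sum_mul]
      exact le_of_eq rfl
    rw [h3]
    nlinarith

theorem chebyshev {E : ℕ → Set Ω} (hE : ∀ n, MeasurableSet (E n))
    (hneg : ∀ n m, n ≠ m → μ.real (E n ∩ E m) ≤ μ.real (E n) * μ.real (E m)) {N : ℕ} (hN : 0 < tot μ E N)
    {ε : ℝ} (hε : 0 < ε) :
    μ.real {ω | ε * tot μ E N ≤ |cnt E N ω - tot μ E N|} ≤ 1 / (ε ^ 2 * tot μ E N) := by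
  obtain ⟨h1, h2⟩ := second_moment hE hneg N
  have h3 := mul_meas_ge_le_integral_of_nonneg (μ := μ) (f := fun ω => (cnt E N ω - tot μ E N) ^ 2)
    (Eventually.of_forall (fun ω => sq_nonneg _)) h1 ((ε * tot μ E N) ^ 2)
  have h4 : {ω | ε * tot μ E N ≤ |cnt E N ω - tot μ E N|} ⊆ {ω | (ε * tot μ E N) ^ 2 ≤ (cnt E N ω - tot μ E N) ^ 2} := by
    intro ω hω
    have hω' : ε * tot μ E N ≤ |cnt E N ω - tot μ E N| := hω
    show (ε * tot μ E N) ^ 2 ≤ (cnt E N ω - tot μ E N) ^ 2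
    rw [← sq_abs (cnt E N ω - tot μ E N)]
    exact pow_le_pow_left₀ (by positivity) hω' 2
  have h5 : μ.real {ω | ε * tot μ E N ≤ |cnt E N ω - tot μ E N|} ≤
      μ.real {ω | (ε * tot μ E N) ^ 2 ≤ (cnt E N ω - tot μ E N) ^ 2} := measureReal_mono h4
  have h6 : (ε * tot μ E N) ^ 2 * μ.real {ω | ε * tot μ E N ≤ |cnt E N ω - tot μ E N|} ≤ tot μ E N := by
    refine le_trans ?_ (h3.trans h2)
    exact mul_le_mul_of_nonneg_left h5 (sq_nonneg _)
  rw [le_div_iff₀ (by positivity)]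
  have h7 : tot μ E N * (μ.real {ω | ε * tot μ E N ≤ |cnt E N ω - tot μ E N|} * (ε ^ 2 * tot μ E N)) ≤ tot μ E N * 1 := by
    nlinarith
  exact le_of_mul_le_mul_left h7 hN

theorem det {X S : ℕ → ℝ} (hX : Monotone X) (hS : Monotone S) (hST : Tendsto S atTop atTop)
    (M : ℕ → ℕ) (hM1 : ∀ k : ℕ, (k : ℝ) ^ 2 ≤ S (M k)) (hM2 : ∀ k : ℕ, S (M k) ≤ (k : ℝ) ^ 2 + 1)
    (hM3 : ∀ (k N : ℕ), (k : ℝ) ^ 2 ≤ S N → M k ≤ N)
    (hlim : ∀ δ : ℝ, 0 < δ → ∀ᶠ k in atTop, |X (M k) - S (M k)| < δ * S (M k)) :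
    Tendsto (fun N => X N / S N) atTop (nhds 1) := by
  rw [Metric.tendsto_nhds]
  intro ε hε
  obtain ⟨δ, hδ0, hδ1, hδε⟩ : ∃ δ : ℝ, 0 < δ ∧ δ ≤ 1 / 4 ∧ 4 * δ < ε :=
    ⟨min (1 / 4) (ε / 8), by positivity, min_le_left _ _, by have := min_le_right (1 / 4 : ℝ) (ε / 8); linarith⟩
  obtain ⟨k0, hk0⟩ := eventually_atTop.1 (hlim δ hδ0)
  have hS1 := hST.eventually_ge_atTop ((k0 : ℝ) ^ 2 + 16 / δ ^ 2)
  filter_upwards [hS1] with N hN
  have hδ2 : 16 ≤ 16 / δ ^ 2 := by
    rw [le_div_iff₀ (by positivity)]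
    nlinarith
  have hSN : 0 < S N := by nlinarith [sq_nonneg (k0 : ℝ)]
  obtain ⟨r, hr⟩ : ∃ r : ℝ, r = √(S N) := ⟨_, rfl⟩
  have hr0 : 0 ≤ r := hr ▸ Real.sqrt_nonneg _
  have hr2 : r ^ 2 = S N := by rw [hr]; exact Real.sq_sqrt hSN.le
  have hr4 : 4 / δ ≤ r := by
    rw [hr]
    apply Real.le_sqrt_of_sq_le
    have : (4 / δ) ^ 2 = 16 / δ ^ 2 := by rw [div_pow]; norm_num
    nlinarith [sq_nonneg (k0 : ℝ)]
  have hr4' : 4 ≤ δ * r := by
    rw [div_le_iff₀ hδ0] at hr4
    linarith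
  obtain ⟨k, hk⟩ : ∃ k : ℕ, k = ⌊r⌋₊ := ⟨_, rfl⟩
  have hk1 : (k : ℝ) ≤ r := hk ▸ Nat.floor_le hr0
  have hk2 : r < k + 1 := hk ▸ Nat.lt_floor_add_one r
  have hkk : k0 ≤ k := by
    rw [hk]
    apply Nat.le_floor
    rw [hr]
    apply Real.le_sqrt_of_sq_le
    have : 0 ≤ 16 / δ ^ 2 := by positivity
    linarith
  have h1 : M k ≤ N := hM3 k N (by rw [← hr2]; exact pow_le_pow_left₀ (Nat.cast_nonneg k) hk1 2)
  have h2 : N ≤ M (k + 1) := by
    by_contra hcon
    push Not at hcon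
    have h3 := hS hcon.le
    have h4 := hM1 (k + 1)
    have h5 : S N < ((k + 1 : ℕ) : ℝ) ^ 2 := by
      rw [← hr2]
      push_cast
      exact pow_lt_pow_left₀ hk2 hr0 (by norm_num)
    linarith
  have h3 := hk0 k hkk
  have h4 := hk0 (k + 1) (by omega)
  rw [abs_lt] at h3 h4
  have h5 := hX h1
  have h6 := hX h2
  have h7 := hM1 k
  have h8 := hM2 (k + 1)
  push_cast at h8
  have h9 : (r - 1) ^ 2 ≤ (k : ℝ) ^ 2 := pow_le_pow_left₀ (by nlinarith) (by linarith) 2
  have h10 : ((k : ℝ) + 1) ^ 2 ≤ (r + 1) ^ 2 := pow_le_pow_left₀ (by positivity) (by linarith) 2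
  have hr1 : 1 ≤ r := by nlinarith
  rw [Real.dist_eq, abs_lt]
  constructor
  · have h11 : (1 - 2 * δ) * S N ≤ X N := by
      have h12 : (1 - δ) * S (M k) ≤ X N := by nlinarith [h3.1]
      have h13 : (1 - δ) * ((r - 1) ^ 2) ≤ (1 - δ) * S (M k) :=
        mul_le_mul_of_nonneg_left (h9.trans h7) (by linarith)
      have h14 : (1 - 2 * δ) * S N ≤ (1 - δ) * ((r - 1) ^ 2) := by
        rw [← hr2]
        have h15 : 4 * r ≤ δ * r ^ 2 := by nlinarith
        have h16 : δ * r ≤ r := by nlinarith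
        nlinarith
      linarith
    rw [lt_sub_iff_add_lt, lt_div_iff₀ hSN]
    nlinarith
  · have h11 : X N ≤ (1 + 3 * δ) * S N := by
      have h12 : X N ≤ (1 + δ) * S (M (k + 1)) := by nlinarith [h4.2]
      have h13 : (1 + δ) * S (M (k + 1)) ≤ (1 + δ) * ((r + 1) ^ 2 + 1) :=
        mul_le_mul_of_nonneg_left (by linarith) (by linarith)
      have h14 : (1 + δ) * ((r + 1) ^ 2 + 1) ≤ (1 + 3 * δ) * S N := by
        rw [← hr2]
        have h15 : 4 * r ≤ δ * r ^ 2 := by nlinarith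
        nlinarith
      linarith
    rw [sub_lt_iff_lt_add, div_lt_iff₀ hSN]
    nlinarith

/-- The strong law of large numbers for events which are pairwise negatively correlated. -/
theorem strong_law {E : ℕ → Set Ω} (hE : ∀ n, MeasurableSet (E n))
    (hneg : ∀ n m, n ≠ m → μ.real (E n ∩ E m) ≤ μ.real (E n) * μ.real (E m))
    (hS : Tendsto (tot μ E) atTop atTop) :
    ∀ᵐ ω ∂μ, Tendsto (fun N => cnt E N ω / tot μ E N) atTop (nhds 1) := by
  classical
  have hex : ∀ k : ℕ, ∃ N, (k : ℝ) ^ 2 ≤ tot μ E N := fun k => (hS.eventually_ge_atTop ((k : ℝ) ^ 2)).exists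
  obtain ⟨M, hM⟩ : ∃ M : ℕ → ℕ, M = fun (k : ℕ) => Nat.find (hex k) := ⟨_, rfl⟩
  have hM1 : ∀ k : ℕ, (k : ℝ) ^ 2 ≤ tot μ E (M k) := fun k => by rw [hM]; exact Nat.find_spec (hex k)
  have hM3 : ∀ (k : ℕ) (N : ℕ), (k : ℝ) ^ 2 ≤ tot μ E N → M k ≤ N := fun k N h => by
    rw [hM]; exact Nat.find_min' (hex k) h
  have hM2 : ∀ k : ℕ, tot μ E (M k) ≤ (k : ℝ) ^ 2 + 1 := by
    intro k
    rcases Nat.eq_zero_or_pos (M k) with h | h
    · rw [h]
      have : tot μ E 0 = 0 := by unfold tot; simp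
      rw [this]
      positivity
    · obtain ⟨m, hm⟩ : ∃ m, M k = m + 1 := ⟨M k - 1, by omega⟩
      have h1 : ¬ (k : ℝ) ^ 2 ≤ tot μ E m := fun hcon => by
        have := hM3 k m hcon
        omega
      rw [hm]
      have h2 : tot μ E (m + 1) = tot μ E m + μ.real (E m) := by unfold tot; rw [sum_range_succ]
      rw [h2]
      have h3 : μ.real (E m) ≤ 1 := measureReal_le_one
      push Not at h1
      linarith
  have key : ∀ j : ℕ, ∀ᵐ ω ∂μ, ∀ᶠ k in atTop,
      |cnt E (M k) ω - tot μ E (M k)| < 1 / ((j : ℝ) + 1) * tot μ E (M k) := by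
    intro j
    obtain ⟨δ, hδ⟩ : ∃ δ : ℝ, δ = 1 / ((j : ℝ) + 1) := ⟨_, rfl⟩
    have hδ0 : 0 < δ := by rw [hδ]; positivity
    rw [← hδ]
    have hsum : Summable (fun k : ℕ => 1 / δ ^ 2 * (1 / (k : ℝ) ^ 2)) :=
      (Real.summable_one_div_nat_pow.2 (by norm_num)).mul_left _
    have h1 : ∀ k : ℕ, 1 ≤ k → μ.real {ω | δ * tot μ E (M k) ≤ |cnt E (M k) ω - tot μ E (M k)|} ≤
        1 / δ ^ 2 * (1 / (k : ℝ) ^ 2) := by
      intro k hk
      have hk' : (0 : ℝ) < (k : ℝ) ^ 2 := by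
        have : (0 : ℝ) < k := by exact_mod_cast hk
        positivity
      have h2 : 0 < tot μ E (M k) := lt_of_lt_of_le hk' (hM1 k)
      refine (chebyshev hE hneg h2 hδ0).trans ?_
      rw [div_mul_div_comm, one_mul]
      exact one_div_le_one_div_of_le (by positivity) (mul_le_mul_of_nonneg_left (hM1 k) (by positivity))
    have h2 : ∑' k : ℕ, μ {ω | δ * tot μ E (M k) ≤ |cnt E (M k) ω - tot μ E (M k)|} ≠ ⊤ := by
      have h3 : ∀ k : ℕ, μ {ω | δ * tot μ E (M k) ≤ |cnt E (M k) ω - tot μ E (M k)|} ≤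
          ENNReal.ofReal ((if k = 0 then 1 else 0) + 1 / δ ^ 2 * (1 / (k : ℝ) ^ 2)) := by
        intro k
        rw [← ofReal_measureReal]
        apply ENNReal.ofReal_le_ofReal
        rcases Nat.eq_zero_or_pos k with h | h
        · rw [if_pos h]
          have h4 : μ.real {ω | δ * tot μ E (M k) ≤ |cnt E (M k) ω - tot μ E (M k)|} ≤ 1 := measureReal_le_one
          have h5 : 0 ≤ 1 / δ ^ 2 * (1 / (k : ℝ) ^ 2) := by positivity
          linarith
        · rw [if_neg (by omega), zero_add]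
          exact h1 k h
      have hs2 : Summable (fun k : ℕ => (if k = 0 then (1 : ℝ) else 0) + 1 / δ ^ 2 * (1 / (k : ℝ) ^ 2)) := by
        refine Summable.add ?_ hsum
        exact summable_of_ne_finset_zero (s := {0}) (fun b hb => by
          rw [if_neg]
          simpa using hb)
      refine ne_top_of_le_ne_top ?_ (ENNReal.tsum_le_tsum h3)
      rw [← ENNReal.ofReal_tsum_of_nonneg (fun k => by
        have : 0 ≤ 1 / δ ^ 2 * (1 / (k : ℝ) ^ 2) := by positivity
        split_ifs <;> linarith) hs2]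
      exact ENNReal.ofReal_ne_top
    have h3 := ae_eventually_notMem h2
    filter_upwards [h3] with ω hω
    filter_upwards [hω] with k hk
    have hk' : ¬ δ * tot μ E (M k) ≤ |cnt E (M k) ω - tot μ E (M k)| := hk
    push Not at hk'
    exact hk'
  filter_upwards [ae_all_iff.2 key] with ω hω
  refine det (cnt_mono E ω) (tot_mono E) hS M hM1 hM2 hM3 (fun δ hδ => ?_)
  obtain ⟨j, hj⟩ := exists_nat_gt (1 / δ)
  have hj1 : 1 / ((j : ℝ) + 1) ≤ δ := by
    rw [div_le_iff₀ (by positivity)]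
    rw [div_lt_iff₀ hδ] at hj
    nlinarith
  filter_upwards [hω j] with k hk
  refine lt_of_lt_of_le hk ?_
  exact mul_le_mul_of_nonneg_right hj1 (tot_nonneg _ _)

end Pool.Agent.Q120.NC
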