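import Pool.Agent.Q120.NC.Gap
import Pool.Agent.Q120.AD.Main

/-!
# Asymptotics of the probability of a long window without elements, to second order
-/

set_option autoImplicit false

namespace Pool.Agent.Q120.NC

open Finset MeasureTheory Filter Pool.Agent.Q120.ET Pool.Agent.Q120.MF Pool.Agent.Q120.PT Pool.Agent.Q120.AD

theorem log_one_sub {s : ℝ} (h0 : 0 ≤ s) (h1 : s ≤ 1 / 2) : |Real.log (1 - s) + s + s ^ 2 / 2| ≤ 2 * s ^ 3 := by
  have h2 := Real.abs_log_sub_add_sum_range_le (x := s) (by rw [abs_of_nonneg h0]; linarith) 2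
  rw [sum_range_succ, sum_range_succ, sum_range_zero, abs_of_nonneg h0] at h2
  have h3 : s ^ (2 + 1) / (1 - s) ≤ 2 * s ^ 3 := by
    rw [div_le_iff₀ (by linarith)]
    have : 0 ≤ s ^ 3 := by positivity
    norm_num
    nlinarith
  refine le_trans (le_of_eq ?_) (h2.trans h3)
  congr 1
  norm_num
  ring

theorem term_bound {n m h : ℕ} (hL : 2 ≤ Real.log n) (hh : (h : ℝ) * Real.log n ≤ n) (hm1 : n < m) (hm2 : m ≤ n + h) :
    |Real.log (1 - 1 / Real.log m) + 1 / Real.log n + (1 / Real.log n) ^ 2 / 2| ≤ 4 * (1 / Real.log n) ^ 3 := by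
  obtain ⟨L, hLd⟩ : ∃ L : ℝ, L = Real.log n := ⟨_, rfl⟩
  obtain ⟨t, ht⟩ : ∃ t : ℝ, t = 1 / L := ⟨_, rfl⟩
  rw [← hLd] at hL hh ⊢
  rw [← ht]
  have ht0 : 0 < t := by rw [ht]; positivity
  have ht1 : t ≤ 1 / 2 := by rw [ht]; exact one_div_le_one_div_of_le (by norm_num) hL
  have htL : t * L = 1 := by rw [ht]; field_simp
  have hn0 : (0 : ℝ) < n := by
    rcases Nat.eq_zero_or_pos n with h0 | h0
    · rw [h0] at hLd
      simp at hLd
      linarith
    · exact_mod_cast h0
  have hlm1 : L ≤ Real.log m := by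
    rw [hLd]
    exact Real.log_le_log hn0 (by exact_mod_cast hm1.le)
  have hlm2 : Real.log m ≤ L + t := by
    have h1 : Real.log m ≤ Real.log n + (m - n) / n := by
      have h2 : Real.log m = Real.log n + Real.log (m / n) := by
        rw [Real.log_div (by have : 0 < m := by omega
                             exact_mod_cast this.ne') hn0.ne']
        ring
      rw [h2]
      have h3 := Real.log_le_sub_one_of_pos (show (0 : ℝ) < m / n by
        have : (0 : ℝ) < m := by
          have : 0 < m := by omega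
          exact_mod_cast this
        positivity)
      have h4 : (m : ℝ) / n - 1 = (m - n) / n := by field_simp
      linarith
    have h2 : ((m : ℝ) - n) / n ≤ t := by
      rw [div_le_iff₀ hn0]
      have h3 : (m : ℝ) ≤ n + h := by exact_mod_cast hm2
      have h4 : (h : ℝ) ≤ t * n := by
        have h5 : t * ((h : ℝ) * L) ≤ t * n := mul_le_mul_of_nonneg_left hh ht0.le
        have h6 : t * ((h : ℝ) * L) = h := by
          have : t * ((h : ℝ) * L) = h * (t * L) := by ring
          rw [this, htL, mul_one]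
        linarith
      linarith
    rw [hLd]
    linarith
  obtain ⟨s, hs⟩ : ∃ s : ℝ, s = 1 / Real.log m := ⟨_, rfl⟩
  rw [← hs]
  have hsm : s * Real.log m = 1 := by
    rw [hs]
    have : 0 < Real.log m := by linarith
    field_simp
  have hs0 : 0 < s := by
    rw [hs]
    have : 0 < Real.log m := by linarith
    positivity
  have hs1 : s ≤ t := by
    rw [hs, ht]
    exact one_div_le_one_div_of_le (by linarith) hlm1
  have hs2 : t - t ^ 3 ≤ s := by
    have h1 : (t - t ^ 3) * (L + t) ≤ 1 := by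
      have : (t - t ^ 3) * (L + t) = t * L - t ^ 2 * (t * L) + t ^ 2 - t ^ 4 := by ring
      rw [this, htL]
      nlinarith [sq_nonneg (t ^ 2)]
    have h2 : 0 ≤ t - t ^ 3 := by nlinarith [mul_pos ht0 ht0]
    have h3 : (t - t ^ 3) * Real.log m ≤ s * Real.log m := by
      rw [hsm]
      exact (mul_le_mul_of_nonneg_left hlm2 h2).trans h1
    exact le_of_mul_le_mul_right h3 (by linarith)
  have h1 := log_one_sub hs0.le (hs1.trans ht1)
  have ht3 : 0 < t ^ 3 := by positivity
  have hs3 : s ^ 3 ≤ t ^ 3 := pow_le_pow_left₀ hs0.le hs1 3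
  rw [abs_le] at h1 ⊢
  have h4 : (t - s) * (t + s) ≤ 2 * t ^ 3 := by
    have h5 : (t - s) * (t + s) ≤ t ^ 3 * (t + s) := mul_le_mul_of_nonneg_right (by linarith) (by linarith)
    nlinarith
  have h5 : 0 ≤ (t - s) * (t + s) := mul_nonneg (by linarith) (by linarith)
  constructor <;> nlinarith

theorem log_pFree {n h : ℕ} (hL : 2 ≤ Real.log n) (hh : (h : ℝ) * Real.log n ≤ n) :
    ∃ e : ℝ, |e| ≤ 4 * (h * (1 / Real.log n) ^ 3) ∧
      pFree (Ioc n (n + h)) = Real.exp (-(h / Real.log n) - h * (1 / Real.log n) ^ 2 / 2 + e) := by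
  have hn3 : 3 ≤ n := by
    by_contra hcon
    have h1 : n ≤ 2 := by omega
    have h2 : Real.log n ≤ Real.log 2 := by
      rcases Nat.eq_zero_or_pos n with h0 | h0
      · rw [h0]; simp; positivity
      · exact Real.log_le_log (by exact_mod_cast h0) (by exact_mod_cast h1)
    have := Real.log_two_lt_d9
    linarith
  refine ⟨∑ m ∈ Ioc n (n + h), (Real.log (1 - 1 / Real.log m) + 1 / Real.log n + (1 / Real.log n) ^ 2 / 2), ?_, ?_⟩
  · refine (abs_sum_le_sum_abs _ _).trans ?_
    have h1 : ∀ m ∈ Ioc n (n + h), |Real.log (1 - 1 / Real.log m) + 1 / Real.log n + (1 / Real.log n) ^ 2 / 2| ≤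
        4 * (1 / Real.log n) ^ 3 := by
      intro m hm
      rw [mem_Ioc] at hm
      exact term_bound hL hh hm.1 hm.2
    refine (sum_le_card_nsmul _ _ _ h1).trans (le_of_eq ?_)
    rw [Nat.card_Ioc, nsmul_eq_mul]
    have : ((n + h - n : ℕ) : ℝ) = h := by
      congr 1
      omega
    rw [this]
    ring
  · have h1 : pFree (Ioc n (n + h)) = Real.exp (∑ m ∈ Ioc n (n + h), Real.log (1 - 1 / Real.log m)) := by
      rw [Real.exp_sum]
      unfold pFree
      refine prod_congr rfl (fun m hm => ?_)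
      rw [mem_Ioc] at hm
      rw [Real.exp_log]
      have h2 := one_lt_log (show 3 ≤ m by omega)
      have : 1 / Real.log (m : ℝ) < 1 := by rw [div_lt_one (by linarith)]; exact h2
      linarith
    rw [h1]
    congr 1
    rw [sum_add_distrib, sum_add_distrib, sum_const, sum_const, Nat.card_Ioc, nsmul_eq_mul, nsmul_eq_mul]
    have : ((n + h - n : ℕ) : ℝ) = h := by
      congr 1
      omega
    rw [this]
    ring

theorem asym {h : ℕ → ℕ} {θ : ℝ} (hh : Tendsto (fun n => (h n : ℝ) / Real.log n ^ 2) atTop (nhds θ)) :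
    Tendsto (fun n => pFree (Ioc n (n + h n)) * Real.exp (h n / Real.log n)) atTop (nhds (Real.exp (-(θ / 2)))) := by
  have h1 : ∀ᶠ n : ℕ in atTop, ∃ e : ℝ, |e| ≤ 4 * (h n * (1 / Real.log n) ^ 3) ∧
      pFree (Ioc n (n + h n)) = Real.exp (-(h n / Real.log n) - h n * (1 / Real.log n) ^ 2 / 2 + e) := by
    filter_upwards [hl.eventually_ge_atTop 2, hh.eventually_le_const (show θ < θ + 1 by linarith),
      ev_pow (θ + 1) 1 one_pos] with n h2 h3 h4
    refine log_pFree h2 ?_
    rw [div_le_iff₀ (by positivity)] at h3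
    rw [Real.rpow_one] at h4
    have : (h n : ℝ) * Real.log n ≤ (θ + 1) * Real.log n ^ 2 * Real.log n :=
      mul_le_mul_of_nonneg_right h3 (by linarith)
    nlinarith
  obtain ⟨e, he⟩ : ∃ e : ℕ → ℝ, ∀ᶠ n : ℕ in atTop, |e n| ≤ 4 * (h n * (1 / Real.log n) ^ 3) ∧
      pFree (Ioc n (n + h n)) = Real.exp (-(h n / Real.log n) - h n * (1 / Real.log n) ^ 2 / 2 + e n) := by
    classical
    refine ⟨fun n => if hn : ∃ e : ℝ, |e| ≤ 4 * (h n * (1 / Real.log n) ^ 3) ∧
      pFree (Ioc n (n + h n)) = Real.exp (-(h n / Real.log n) - h n * (1 / Real.log n) ^ 2 / 2 + e)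
        then hn.choose else 0, ?_⟩
    filter_upwards [h1] with n hn
    rw [dif_pos hn]
    exact hn.choose_spec
  have ht : Tendsto (fun n : ℕ => 1 / Real.log (n : ℝ)) atTop (nhds 0) := by
    simp only [one_div]
    exact hl.inv_tendsto_atTop
  have h2 : Tendsto (fun n : ℕ => (h n : ℝ) * (1 / Real.log n) ^ 2) atTop (nhds θ) := by
    refine hh.congr (fun n => ?_)
    rw [one_div, inv_pow]
    rfl
  have h3 : Tendsto (fun n : ℕ => 4 * ((h n : ℝ) * (1 / Real.log n) ^ 3)) atTop (nhds 0) := by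
    have h4 := (h2.mul ht).const_mul 4
    rw [mul_zero, mul_zero] at h4
    refine h4.congr (fun n => ?_)
    ring
  have he0 : Tendsto e atTop (nhds 0) := by
    refine squeeze_zero_norm' ?_ h3
    filter_upwards [he] with n hn
    exact hn.1
  have h4 : Tendsto (fun n => Real.exp (-((h n : ℝ) * (1 / Real.log n) ^ 2 / 2) + e n)) atTop
      (nhds (Real.exp (-(θ / 2)))) := by
    refine (Real.continuous_exp.tendsto _).comp ?_
    have h5 := (h2.div_const 2).neg.add he0
    rwa [add_zero] at h5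
  refine h4.congr' ?_
  filter_upwards [he] with n hn
  rw [hn.2, ← Real.exp_add]
  congr 1
  ring

end Pool.Agent.Q120.NC
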