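import Pool.Agent.Q120.NC.Second

/-!
# The second order law of the large gaps in Cramér's model: the counts
-/

set_option autoImplicit false

namespace Pool.Agent.Q120.NC

open Finset MeasureTheory Filter Pool.Agent.Q120.ET Pool.Agent.Q120.MF Pool.Agent.Q120.PT Pool.Agent.Q120.AD

variable {Ω : Type*} [MeasurableSpace Ω] {μ : Measure Ω} [IsProbabilityMeasure μ] {A : Ω → Set ℕ}

/-- The length `log^2 n + c log n log log log n`. -/
noncomputable def len (c : ℝ) (n : ℕ) : ℝ :=
  Real.log n ^ 2 + c * (Real.log n * Real.log (Real.log (Real.log n)))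

/-- The number of integers `m` with `n < m < n + len c n`. -/
noncomputable def hlen (c : ℝ) (n : ℕ) : ℕ := ⌈len c n⌉₊ - 1

theorem lll_div : Tendsto (fun n : ℕ => Real.log (Real.log (Real.log (n : ℝ))) / Real.log n) atTop (nhds 0) := by
  have h1 : ∀ᶠ n : ℕ in atTop, |Real.log (Real.log (Real.log (n : ℝ))) / Real.log n| ≤
      Real.log (Real.log (n : ℝ)) / Real.log n := by
    filter_upwards [tll.eventually_ge_atTop 1, hl.eventually_ge_atTop 1] with n h1 h2
    have h3 : 0 ≤ Real.log (Real.log (Real.log n)) := Real.log_nonneg h1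
    have h4 : Real.log (Real.log (Real.log n)) ≤ Real.log (Real.log n) :=
      (Real.log_le_sub_one_of_pos (by linarith)).trans (by linarith)
    rw [abs_of_nonneg (by positivity)]
    gcongr
  have h2 : Tendsto (fun n : ℕ => Real.log (Real.log (n : ℝ)) / Real.log n) atTop (nhds 0) := by
    have h3 := (Real.isLittleO_log_id_atTop.tendsto_div_nhds_zero).comp hl
    exact h3
  exact squeeze_zero_norm' h1 h2

theorem len_asym (c : ℝ) : Tendsto (fun n : ℕ => len c n / Real.log n ^ 2) atTop (nhds 1) := by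
  have h1 : Tendsto (fun n : ℕ => 1 + c * (Real.log (Real.log (Real.log (n : ℝ))) / Real.log n)) atTop
      (nhds (1 + c * 0)) := (lll_div.const_mul c).const_add 1
  rw [mul_zero, add_zero] at h1
  refine h1.congr' ?_
  filter_upwards [hl.eventually_ge_atTop 1] with n h2
  unfold len
  field_simp

theorem len_tendsto (c : ℝ) : Tendsto (fun n : ℕ => len c n) atTop atTop := by
  have h1 := (len_asym c).pos_mul_atTop one_pos hl2
  refine h1.congr' ?_
  filter_upwards [hl.eventually_ge_atTop 1] with n h2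
  field_simp

theorem hlen_near (c : ℝ) : ∀ᶠ n : ℕ in atTop, |(hlen c n : ℝ) - len c n| ≤ 1 := by
  filter_upwards [(len_tendsto c).eventually_ge_atTop 1] with n hn
  unfold hlen
  have h1 := Nat.ceil_lt_add_one (show 0 ≤ len c n by linarith)
  have h2 := Nat.le_ceil (len c n)
  have h3 : 1 ≤ ⌈len c n⌉₊ := Nat.one_le_ceil_iff.2 (by linarith)
  rw [Nat.cast_sub h3, abs_le]
  push_cast
  constructor <;> linarith

theorem hlen_asym (c : ℝ) : Tendsto (fun n : ℕ => (hlen c n : ℝ) / Real.log n ^ 2) atTop (nhds 1) := by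
  have h1 : Tendsto (fun n : ℕ => ((hlen c n : ℝ) - len c n) / Real.log n ^ 2) atTop (nhds 0) := by
    have h2 : Tendsto (fun n : ℕ => 1 / Real.log (n : ℝ) ^ 2) atTop (nhds 0) := by
      simp only [one_div]
      exact hl2.inv_tendsto_atTop
    refine squeeze_zero_norm' ?_ h2
    filter_upwards [hlen_near c, hl.eventually_ge_atTop 1] with n h3 h4
    rw [Real.norm_eq_abs, abs_div, abs_of_pos (show 0 < Real.log (n : ℝ) ^ 2 by positivity)]
    gcongr
  have h3 := h1.add (len_asym c)
  rw [zero_add] at h3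
  refine h3.congr (fun n => ?_)
  ring

/-- The probability that `n` is an element followed by a gap of at least `len c n`. -/
theorem gapP_asym (c : ℝ) : Tendsto (fun n : ℕ => gapP (hlen c) n * wt c n) atTop (nhds (Real.exp (-(1 / 2)))) := by
  have h1 := asym (hlen_asym c)
  have h2 : Tendsto (fun n : ℕ => ((hlen c n : ℝ) - len c n) / Real.log n) atTop (nhds 0) := by
    have h2 : Tendsto (fun n : ℕ => 1 / Real.log (n : ℝ)) atTop (nhds 0) := by
      simp only [one_div]
      exact hl.inv_tendsto_atTop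
    refine squeeze_zero_norm' ?_ h2
    filter_upwards [hlen_near c, hl.eventually_ge_atTop 1] with n h3 h4
    rw [Real.norm_eq_abs, abs_div, abs_of_pos (show 0 < Real.log (n : ℝ) by linarith)]
    gcongr
  have h3 : Tendsto (fun n : ℕ => Real.exp (-(((hlen c n : ℝ) - len c n) / Real.log n))) atTop (nhds 1) := by
    have h4 := (Real.continuous_exp.tendsto _).comp h2.neg
    rw [neg_zero, Real.exp_zero] at h4
    exact h4
  have h4 := h1.mul h3
  rw [mul_one] at h4
  refine h4.congr' ?_
  filter_upwards [eventually_ge_atTop 3, tll.eventually_ge_atTop 1] with n hn hll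
  have hl1 := one_lt_log hn
  have hn0 : (0 : ℝ) < n := by
    have : 0 < n := by omega
    exact_mod_cast this
  unfold gapP wt
  rw [if_pos hn, mul_assoc, ← Real.exp_add]
  have h5 : (hlen c n : ℝ) / Real.log n + -(((hlen c n : ℝ) - len c n) / Real.log n) = len c n / Real.log n := by
    field_simp
    ring
  have h6 : Real.exp (len c n / Real.log n) = n * Real.log (Real.log n) ^ c := by
    have h7 : len c n / Real.log n = Real.log n + c * Real.log (Real.log (Real.log n)) := by
      unfold len
      field_simp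
    rw [h7, Real.exp_add, Real.exp_log hn0]
    congr 1
    rw [Real.rpow_def_of_pos (by linarith)]
    congr 1
    ring
  rw [h5, h6]
  field_simp

theorem gapP_div (c : ℝ) : Tendsto (fun n : ℕ => gapP (hlen c) n / (prim c ((n + 1 : ℕ) : ℝ) - prim c n)) atTop
    (nhds (Real.exp (-(1 / 2)))) := by
  have h1 := (gapP_asym c).div (incr_asym c) one_ne_zero
  rw [div_one] at h1
  refine h1.congr' ?_
  filter_upwards [eventually_ge_atTop 3] with n hn
  have hn0 : (0 : ℝ) < n := by
    have : 0 < n := by omega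
    exact_mod_cast this
  have h2 := wt_pos (c := c) hn0 (one_lt_log hn)
  have h3 := incr_pos c hn
  simp only [Pi.div_apply]
  field_simp

theorem prim_tendsto {c : ℝ} (hc : c ≤ 1) : Tendsto (fun n : ℕ => prim c (n : ℝ)) atTop atTop := by
  by_cases h1 : c = 1
  · unfold prim
    simp only [if_pos h1]
    exact tlll
  · unfold prim
    simp only [if_neg h1]
    have h2 : 0 < 1 - c := sub_pos.2 (lt_of_le_of_ne hc h1)
    exact ((tendsto_rpow_atTop h2).comp tll).atTop_div_const h2

theorem not_summable {c : ℝ} (hc : c ≤ 1) : ¬ Summable (gapP (hlen c)) := by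
  have h1 := stolz (u := gapP (hlen c)) (G := fun n : ℕ => prim c (n : ℝ)) (prim_tendsto hc)
    (by filter_upwards [eventually_ge_atTop 3] with n hn using incr_pos c hn) (gapP_div c)
  have h2 := h1.pos_mul_atTop (Real.exp_pos _) (prim_tendsto hc)
  rw [not_summable_iff_tendsto_nat_atTop_of_nonneg (fun n => gapP_nonneg _ n)]
  refine h2.congr' ?_
  filter_upwards [(prim_tendsto hc).eventually_gt_atTop 0] with n hn
  field_simp

theorem summable {c : ℝ} (hc : 1 < c) : Summable (gapP (hlen c)) := by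
  have h1 : ∀ᶠ n : ℕ in atTop, gapP (hlen c) n ≤ 1 * |prim c ((n + 1 : ℕ) : ℝ) - prim c n| := by
    have h2 : Real.exp (-(1 / 2)) < 1 := by
      rw [Real.exp_lt_one_iff]
      norm_num
    filter_upwards [(gapP_div c).eventually_le_const h2, eventually_ge_atTop 3] with n hn h3
    have h4 := incr_pos c h3
    rw [div_le_iff₀ h4] at hn
    rw [abs_of_pos h4]
    exact hn
  obtain ⟨C, hC⟩ := sum_abs_incr (G := fun n : ℕ => prim c (n : ℝ))
    (by filter_upwards [eventually_ge_atTop 3] with n hn using incr_pos c hn)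
  have h2 : Summable (fun n : ℕ => |prim c ((n + 1 : ℕ) : ℝ) - prim c n|) := by
    have h3 : ∀ᶠ N : ℕ in atTop, ∑ n ∈ range N, |prim c ((n + 1 : ℕ) : ℝ) - prim c n| ≤ C := by
      filter_upwards [hC, tll.eventually_ge_atTop 1] with N hN hll
      rw [hN]
      have : prim c (N : ℝ) ≤ 0 := by
        unfold prim
        rw [if_neg (by linarith : ¬ c = 1)]
        have : 0 < Real.log (Real.log N) ^ (1 - c) := Real.rpow_pos_of_pos (by linarith) _
        exact div_nonpos_of_nonneg_of_nonpos this.le (by linarith)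
      linarith
    obtain ⟨N0, hN0⟩ := eventually_atTop.1 h3
    refine summable_of_sum_range_le (c := C) (fun n => abs_nonneg _) (fun N => ?_)
    refine le_trans ?_ (hN0 (max N N0) (le_max_right _ _))
    exact sum_le_sum_of_subset_of_nonneg (range_mono (le_max_left _ _)) (fun _ _ _ => abs_nonneg _)
  refine Summable.of_norm_bounded_eventually_nat h2 ?_
  filter_upwards [h1] with n hn
  rw [Real.norm_of_nonneg (gapP_nonneg _ n)]
  linarith

/-- The elements `a ≤ N` such that the next element is at distance at least `len c a`. -/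
def LongGaps (S : Set ℕ) (c : ℝ) (N : ℕ) : Set ℕ :=
  {a | a ∈ S ∧ 3 ≤ a ∧ a ≤ N ∧ ∀ b ∈ S, a < b → (a : ℝ) + len c a ≤ b}

theorem gap_iff (S : Set ℕ) (c : ℝ) (a : ℕ) :
    (∀ b ∈ S, a < b → (a : ℝ) + len c a ≤ b) ↔ ∀ b ∈ S, a < b → a + hlen c a < b := by
  refine forall₂_congr (fun b _ => ?_)
  refine imp_congr_right (fun hab => ?_)
  unfold hlen
  have h1 : (a : ℝ) + len c a ≤ b ↔ ⌈len c a⌉₊ ≤ b - a := by
    rw [Nat.ceil_le, Nat.cast_sub hab.le]
    constructor <;> intro h <;> linarith
  rw [h1]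
  omega

theorem ncard_eq (c : ℝ) (N : ℕ) (ω : Ω) : ((LongGaps (A ω) c N).ncard : ℝ) = cnt (GapEv A (hlen c)) (N + 1) ω := by
  classical
  have h1 : LongGaps (A ω) c N = (((range (N + 1)).filter (fun a => ω ∈ GapEv A (hlen c) a) : Finset ℕ) : Set ℕ) := by
    ext a
    rw [mem_coe, mem_filter, mem_range]
    constructor
    · rintro ⟨h1, h2, h3, h4⟩
      exact ⟨by omega, h2, h1, (gap_iff _ _ _).1 h4⟩
    · rintro ⟨h1, h2, h3, h4⟩
      exact ⟨h3, h2, by omega, (gap_iff _ _ _).2 h4⟩
  rw [h1, Set.ncard_coe_finset]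
  unfold cnt
  rw [card_filter]
  push_cast
  refine sum_congr rfl (fun a _ => ?_)
  by_cases h : ω ∈ GapEv A (hlen c) a
  · rw [if_pos h, Set.indicator_of_mem h]
  · rw [if_neg h, Set.indicator_of_notMem h]

theorem prim_succ {c : ℝ} (hc : c ≤ 1) :
    Tendsto (fun N : ℕ => prim c ((N + 1 : ℕ) : ℝ) / prim c N) atTop (nhds 1) := by
  have hd : Tendsto (fun n : ℕ => prim c ((n + 1 : ℕ) : ℝ) - prim c n) atTop (nhds 0) := by
    have h1 : Tendsto (fun n : ℕ => ((prim c ((n + 1 : ℕ) : ℝ) - prim c n) * wt c n) * (wt c n)⁻¹) atTop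
        (nhds (1 * 0)) := by
      refine (incr_asym c).mul ?_
      have h2 := ((isLittleO_log_rpow_rpow_atTop (s := 1) (-c) one_pos).tendsto_div_nhds_zero).comp hl
      have h3 := h2.mul (tendsto_one_div_atTop_nhds_zero_nat (𝕜 := ℝ))
      rw [mul_zero] at h3
      refine h3.congr' ?_
      filter_upwards [eventually_ge_atTop 3, tll.eventually_ge_atTop 1] with n hn hll
      simp only [Function.comp_apply]
      unfold wt
      have hl1 := one_lt_log hn
      have hn0 : (0 : ℝ) < n := by
        have : 0 < n := by omega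
        exact_mod_cast this
      have hpos : 0 < Real.log (Real.log (n : ℝ)) ^ c := Real.rpow_pos_of_pos (by linarith) c
      rw [Real.rpow_neg (by linarith), Real.rpow_one]
      field_simp
    rw [one_mul] at h1
    refine h1.congr' ?_
    filter_upwards [eventually_ge_atTop 3] with n hn
    have hn0 : (0 : ℝ) < n := by
      have : 0 < n := by omega
      exact_mod_cast this
    have h2 := wt_pos (c := c) hn0 (one_lt_log hn)
    field_simp
  have h2 := hd.mul ((prim_tendsto hc).inv_tendsto_atTop)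
  rw [zero_mul] at h2
  have h3 := h2.const_add 1
  rw [add_zero] at h3
  refine h3.congr' ?_
  filter_upwards [(prim_tendsto hc).eventually_gt_atTop 0] with n hn
  simp only [Pi.inv_apply]
  field_simp
  ring

theorem count_law (hA : IsCramer μ A) {c : ℝ} (hc : c ≤ 1) :
    ∀ᵐ ω ∂μ, Tendsto (fun N : ℕ => ((LongGaps (A ω) c N).ncard : ℝ) / prim c N) atTop (nhds (Real.exp (-(1 / 2)))) := by
  have h1 := stolz (u := gapP (hlen c)) (G := fun n : ℕ => prim c (n : ℝ)) (prim_tendsto hc)
    (by filter_upwards [eventually_ge_atTop 3] with n hn using incr_pos c hn) (gapP_div c)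
  filter_upwards [gap_law hA (hlen c) (not_summable hc)] with ω hω
  have h2 := (hω.mul h1).comp (tendsto_add_atTop_nat 1)
  rw [one_mul] at h2
  have h3 := h2.mul (prim_succ hc)
  rw [mul_one] at h3
  have hT := (not_summable_iff_tendsto_nat_atTop_of_nonneg (fun i => gapP_nonneg (hlen c) i)).1 (not_summable hc)
  refine h3.congr' ?_
  filter_upwards [(hT.comp (tendsto_add_atTop_nat 1)).eventually_gt_atTop 0,
    ((prim_tendsto hc).comp (tendsto_add_atTop_nat 1)).eventually_gt_atTop 0] with N hN1 hN2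
  rw [ncard_eq]
  simp only [Function.comp_apply] at hN1 hN2 ⊢
  field_simp

theorem fin_law (hA : IsCramer μ A) {c : ℝ} (hc : 1 < c) :
    ∀ᵐ ω ∂μ, {a | a ∈ A ω ∧ 3 ≤ a ∧ ∀ b ∈ A ω, a < b → (a : ℝ) + len c a ≤ b}.Finite := by
  filter_upwards [gap_fin hA (hlen c) (summable hc)] with ω hω
  obtain ⟨N, hN⟩ := eventually_atTop.1 hω
  refine (Set.finite_lt_nat N).subset (fun a ha => ?_)
  obtain ⟨h1, h2, h3⟩ := ha
  by_contra hcon
  have hcon' : N ≤ a := not_lt.1 hcon
  exact hN a hcon' ⟨h2, h1, (gap_iff _ _ _).1 h3⟩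

end Pool.Agent.Q120.NC
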