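import Pool.Agent.Q120.NC.Asym

/-!
# The second order law of the large gaps in Cramér's model
-/

set_option autoImplicit false

namespace Pool.Agent.Q120.NC

open Finset MeasureTheory Filter Pool.Agent.Q120.ET Pool.Agent.Q120.MF Pool.Agent.Q120.PT Pool.Agent.Q120.AD

theorem sum_abs_incr {G : ℕ → ℝ} (hpos : ∀ᶠ n in atTop, 0 < G (n + 1) - G n) :
    ∃ C : ℝ, ∀ᶠ N in atTop, ∑ n ∈ range N, |G (n + 1) - G n| = G N + C := by
  obtain ⟨N0, hN0⟩ := eventually_atTop.1 hpos
  refine ⟨(∑ n ∈ range N0, |G (n + 1) - G n|) - G N0, ?_⟩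
  filter_upwards [eventually_ge_atTop N0] with N hN
  induction N, hN using Nat.le_induction with
  | base => ring
  | succ n hn ih =>
    rw [sum_range_succ, ih, abs_of_pos (hN0 n hn)]
    ring

/-- Stolz–Cesàro. -/
theorem stolz {u G : ℕ → ℝ} {L : ℝ} (hG : Tendsto G atTop atTop) (hpos : ∀ᶠ n in atTop, 0 < G (n + 1) - G n)
    (h : Tendsto (fun n => u n / (G (n + 1) - G n)) atTop (nhds L)) :
    Tendsto (fun N => (∑ n ∈ range N, u n) / G N) atTop (nhds L) := by
  obtain ⟨C, hC⟩ := sum_abs_incr hpos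
  have h1 : (fun n => u n - L * (G (n + 1) - G n)) =o[atTop] (fun n => |G (n + 1) - G n|) := by
    rw [Asymptotics.isLittleO_iff_tendsto']
    · have h2 : Tendsto (fun n => u n / (G (n + 1) - G n) - L) atTop (nhds 0) := by
        have := h.sub_const L
        rwa [sub_self] at this
      refine h2.congr' ?_
      filter_upwards [hpos] with n hn
      rw [abs_of_pos hn]
      field_simp
    · filter_upwards [hpos] with n hn h0
      rw [abs_eq_zero] at h0
      linarith
  have hT : Tendsto (fun N => ∑ n ∈ range N, |G (n + 1) - G n|) atTop atTop := by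
    refine (tendsto_atTop_add_const_right _ C hG).congr' ?_
    filter_upwards [hC] with N hN
    exact hN.symm
  have h2 := h1.sum_range (fun n => abs_nonneg _) hT
  have h3 : Tendsto (fun N => (∑ n ∈ range N, |G (n + 1) - G n|) / G N) atTop (nhds 1) := by
    have h4 : Tendsto (fun N => 1 + C / G N) atTop (nhds (1 + 0)) := (hG.const_div_atTop C).const_add 1
    rw [add_zero] at h4
    refine h4.congr' ?_
    filter_upwards [hC, hG.eventually_gt_atTop 0] with N hN hN0
    rw [hN]
    field_simp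
  have h4 : Tendsto (fun N => (∑ n ∈ range N, (u n - L * (G (n + 1) - G n))) / G N) atTop (nhds 0) := by
    have h5 := h2.tendsto_div_nhds_zero.mul h3
    rw [zero_mul] at h5
    refine h5.congr' ?_
    filter_upwards [hT.eventually_gt_atTop 0, hG.eventually_gt_atTop 0] with N hN hN0
    field_simp
  have h5 : Tendsto (fun N => (∑ n ∈ range N, (u n - L * (G (n + 1) - G n))) / G N + (L - L * G 0 / G N)) atTop
      (nhds (0 + (L - 0))) := h4.add ((hG.const_div_atTop (L * G 0)).const_sub L)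
  rw [zero_add, sub_zero] at h5
  refine h5.congr' ?_
  filter_upwards [hG.eventually_gt_atTop 0] with N hN
  have h6 : ∑ n ∈ range N, (u n - L * (G (n + 1) - G n)) = (∑ n ∈ range N, u n) - L * (G N - G 0) := by
    rw [sum_sub_distrib, ← mul_sum, sum_range_sub]
  rw [h6]
  field_simp
  ring

/-- The weight `t log t (log log t)^c`. -/
noncomputable def wt (c t : ℝ) : ℝ := t * Real.log t * Real.log (Real.log t) ^ c

/-- A primitive of its inverse. -/
noncomputable def prim (c t : ℝ) : ℝ :=
  if c = 1 then Real.log (Real.log (Real.log t)) else Real.log (Real.log t) ^ (1 - c) / (1 - c)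

theorem hasDerivAt_prim {c t : ℝ} (ht0 : 0 < t) (h1 : 1 < Real.log t) : HasDerivAt (prim c) (1 / wt c t) t := by
  have h2 : 0 < Real.log (Real.log t) := Real.log_pos h1
  have hd1 : HasDerivAt Real.log t⁻¹ t := Real.hasDerivAt_log ht0.ne'
  have hd2 : HasDerivAt (fun t => Real.log (Real.log t)) (t⁻¹ / Real.log t) t := hd1.log (by linarith)
  by_cases hc : c = 1
  · have hf : prim c = fun t => Real.log (Real.log (Real.log t)) := by
      funext t
      unfold prim
      rw [if_pos hc]
    rw [hf]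
    refine (hd2.log h2.ne').congr_deriv ?_
    unfold wt
    rw [hc, Real.rpow_one]
    field_simp
  · have hf : prim c = fun t => Real.log (Real.log t) ^ (1 - c) / (1 - c) := by
      funext t
      unfold prim
      rw [if_neg hc]
    rw [hf]
    refine ((hd2.rpow_const (p := 1 - c) (Or.inl h2.ne')).div_const (1 - c)).congr_deriv ?_
    unfold wt
    have h3 : Real.log (Real.log t) ^ (1 - c - 1) = (Real.log (Real.log t) ^ c)⁻¹ := by
      rw [← Real.rpow_neg h2.le]
      congr 1
      ring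
    rw [h3]
    have h4 : (1 - c) ≠ 0 := sub_ne_zero.2 (Ne.symm hc)
    have h5 : Real.log (Real.log t) ^ c ≠ 0 := (Real.rpow_pos_of_pos h2 c).ne'
    have h6 : Real.log t ≠ 0 := by linarith
    field_simp

theorem tll : Tendsto (fun n : ℕ => Real.log (Real.log (n : ℝ))) atTop atTop := Real.tendsto_log_atTop.comp hl

theorem tlll : Tendsto (fun n : ℕ => Real.log (Real.log (Real.log (n : ℝ)))) atTop atTop :=
  Real.tendsto_log_atTop.comp tll

theorem wt_pos {c t : ℝ} (ht0 : 0 < t) (h1 : 1 < Real.log t) : 0 < wt c t := by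
  unfold wt
  have h2 : 0 < Real.log (Real.log t) := Real.log_pos h1
  have := Real.rpow_pos_of_pos h2 c
  have : 0 < Real.log t := by linarith
  positivity

theorem mvt {c : ℝ} {n : ℕ} (hn : 3 ≤ n) : ∃ ξ : ℝ, (n : ℝ) < ξ ∧ ξ < n + 1 ∧
    prim c ((n + 1 : ℕ) : ℝ) - prim c n = 1 / wt c ξ := by
  have h1 := one_lt_log hn
  have hn0 : (0 : ℝ) < n := by
    have : 0 < n := by omega
    exact_mod_cast this
  have h2 : ∀ t : ℝ, (n : ℝ) ≤ t → 1 < Real.log t := fun t ht => lt_of_lt_of_le h1 (Real.log_le_log hn0 ht)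
  obtain ⟨ξ, hξ, h3⟩ := exists_hasDerivAt_eq_slope (prim c) (fun t => 1 / wt c t) (show (n : ℝ) < n + 1 by linarith)
    (fun t ht => (hasDerivAt_prim (lt_of_lt_of_le hn0 ht.1) (h2 t ht.1)).continuousAt.continuousWithinAt)
    (fun t ht => hasDerivAt_prim (hn0.trans ht.1) (h2 t ht.1.le))
  refine ⟨ξ, hξ.1, hξ.2, ?_⟩
  have h4 : (n : ℝ) + 1 - n = 1 := by ring
  rw [h4, div_one] at h3
  push_cast
  exact h3.symm

theorem incr_pos (c : ℝ) {n : ℕ} (hn : 3 ≤ n) : 0 < prim c ((n + 1 : ℕ) : ℝ) - prim c n := by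
  obtain ⟨ξ, h1, h2, h3⟩ := mvt (c := c) hn
  rw [h3]
  have hn0 : (0 : ℝ) < n := by
    have : 0 < n := by omega
    exact_mod_cast this
  have h4 : 0 < wt c ξ := wt_pos (hn0.trans h1) (lt_of_lt_of_le (one_lt_log hn) (Real.log_le_log hn0 h1.le))
  positivity

theorem incr_asym (c : ℝ) : Tendsto (fun n : ℕ => (prim c ((n + 1 : ℕ) : ℝ) - prim c n) * wt c n) atTop (nhds 1) := by
  classical
  obtain ⟨ξ, hξ⟩ : ∃ ξ : ℕ → ℝ, ∀ n : ℕ, 3 ≤ n → (n : ℝ) < ξ n ∧ ξ n < n + 1 ∧
      prim c ((n + 1 : ℕ) : ℝ) - prim c n = 1 / wt c (ξ n) := by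
    refine ⟨fun n => if h : 3 ≤ n then (mvt (c := c) h).choose else 0, fun n hn => ?_⟩
    simp only [dif_pos hn]
    exact (mvt (c := c) hn).choose_spec
  have hone : Tendsto (fun n : ℕ => 1 + 1 / (n : ℝ)) atTop (nhds 1) := by
    have := (tendsto_one_div_atTop_nhds_zero_nat (𝕜 := ℝ)).const_add 1
    rwa [add_zero] at this
  have hb : ∀ᶠ n : ℕ in atTop, (1 ≤ ξ n / n ∧ ξ n / n ≤ 1 + 1 / (n : ℝ)) ∧
      (1 ≤ Real.log (ξ n) / Real.log n ∧ Real.log (ξ n) / Real.log n ≤ 1 + 1 / (n : ℝ)) ∧
      (1 ≤ Real.log (Real.log (ξ n)) / Real.log (Real.log n) ∧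
        Real.log (Real.log (ξ n)) / Real.log (Real.log n) ≤ 1 + 1 / (n : ℝ)) := by
    filter_upwards [eventually_ge_atTop 3, tll.eventually_ge_atTop 1] with n hn hll
    obtain ⟨h1, h2, _⟩ := hξ n hn
    have hl1 := one_lt_log hn
    have hn0 : (0 : ℝ) < n := by
      have : 0 < n := by omega
      exact_mod_cast this
    have a1 : 1 ≤ ξ n / n := by rw [le_div_iff₀ hn0]; linarith
    have a2 : ξ n / n ≤ 1 + 1 / (n : ℝ) := by
      rw [div_le_iff₀ hn0]
      have : (1 + 1 / (n : ℝ)) * n = n + 1 := by field_simp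
      linarith
    have b0 : Real.log (ξ n) ≤ Real.log n + 1 / n := by
      have h3 : Real.log (ξ n) = Real.log n + Real.log (ξ n / n) := by
        rw [Real.log_div (by linarith) hn0.ne']
        ring
      have h4 := Real.log_le_sub_one_of_pos (show 0 < ξ n / n by positivity)
      rw [h3]
      linarith
    have b00 : Real.log n ≤ Real.log (ξ n) := Real.log_le_log hn0 h1.le
    have b1 : 1 ≤ Real.log (ξ n) / Real.log n := by rw [le_div_iff₀ (by linarith)]; linarith
    have b2 : Real.log (ξ n) / Real.log n ≤ 1 + 1 / (n : ℝ) := by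
      rw [div_le_iff₀ (by linarith)]
      have : 1 / (n : ℝ) ≤ 1 / (n : ℝ) * Real.log n := le_mul_of_one_le_right (by positivity) hl1.le
      nlinarith
    have c0 : Real.log (Real.log (ξ n)) ≤ Real.log (Real.log n) + 1 / n := by
      have h3 : Real.log (Real.log (ξ n)) = Real.log (Real.log n) + Real.log (Real.log (ξ n) / Real.log n) := by
        rw [Real.log_div (by linarith) (by linarith)]
        ring
      have h4 := Real.log_le_sub_one_of_pos (show 0 < Real.log (ξ n) / Real.log n by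
        have : 0 < Real.log (ξ n) := by linarith
        positivity)
      rw [h3]
      linarith
    have c00 : Real.log (Real.log n) ≤ Real.log (Real.log (ξ n)) := Real.log_le_log (by linarith) b00
    refine ⟨⟨a1, a2⟩, ⟨b1, b2⟩, ?_, ?_⟩
    · rw [le_div_iff₀ (by linarith)]; linarith
    · rw [div_le_iff₀ (by linarith)]
      have : 1 / (n : ℝ) ≤ 1 / (n : ℝ) * Real.log (Real.log n) := le_mul_of_one_le_right (by positivity) hll
      nlinarith
  have t1 : Tendsto (fun n : ℕ => ξ n / n) atTop (nhds 1) :=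
    tendsto_of_tendsto_of_tendsto_of_le_of_le' tendsto_const_nhds hone (hb.mono (fun n h => h.1.1)) (hb.mono (fun n h => h.1.2))
  have t2 : Tendsto (fun n : ℕ => Real.log (ξ n) / Real.log n) atTop (nhds 1) :=
    tendsto_of_tendsto_of_tendsto_of_le_of_le' tendsto_const_nhds hone (hb.mono (fun n h => h.2.1.1)) (hb.mono (fun n h => h.2.1.2))
  have t3 : Tendsto (fun n : ℕ => Real.log (Real.log (ξ n)) / Real.log (Real.log n)) atTop (nhds 1) :=
    tendsto_of_tendsto_of_tendsto_of_le_of_le' tendsto_const_nhds hone (hb.mono (fun n h => h.2.2.1)) (hb.mono (fun n h => h.2.2.2))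
  have t4 : Tendsto (fun n : ℕ => (Real.log (Real.log (ξ n)) / Real.log (Real.log n)) ^ c) atTop (nhds 1) := by
    have := t3.rpow_const (p := c) (Or.inl one_ne_zero)
    rwa [Real.one_rpow] at this
  have t5 := ((t1.mul t2).mul t4).inv₀ (by norm_num)
  rw [one_mul, one_mul, inv_one] at t5
  refine t5.congr' ?_
  filter_upwards [eventually_ge_atTop 3, tll.eventually_ge_atTop 1] with n hn hll
  obtain ⟨h1, h2, h3⟩ := hξ n hn
  have hl1 := one_lt_log hn
  have hn0 : (0 : ℝ) < n := by
    have : 0 < n := by omega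
    exact_mod_cast this
  have b00 : Real.log n ≤ Real.log (ξ n) := Real.log_le_log hn0 h1.le
  have c00 : Real.log (Real.log n) ≤ Real.log (Real.log (ξ n)) := Real.log_le_log (by linarith) b00
  rw [h3]
  unfold wt
  rw [Real.div_rpow (by linarith) (by linarith)]
  have e1 : (0 : ℝ) < Real.log (Real.log n) ^ c := Real.rpow_pos_of_pos (by linarith) c
  have e2 : (0 : ℝ) < Real.log (Real.log (ξ n)) ^ c := Real.rpow_pos_of_pos (by linarith) c
  have e3 : 0 < ξ n := by linarith
  have e4 : 0 < Real.log (ξ n) := by linarith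
  have e5 : 0 < Real.log n := by linarith
  field_simp

end Pool.Agent.Q120.NC
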